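import Pool.Agent.MWGR.StmtsA

/-!
# Row EXS of block MWGR: products of powers between heavy letters
-/

set_option autoImplicit false

namespace Pool.Agent.MWGR.H19

open Pool.Agent.Helper14_MV Pool.Agent.Helper2_MV Pool.Agent.MVO Pool.Agent.MWL Pool.Agent.MWS
  Pool.Agent.MWH Pool.Agent.MWGR

theorem GG_cons (x : ℕ) (S : List ℕ) (g : ℕ → ℕ) :
    GG (x :: S) g = List.replicate (g x) x ++ GG S g := rfl

theorem mem_GG {S : List ℕ} {g : ℕ → ℕ} {c : ℕ} (h : c ∈ GG S g) : c ∈ S := by
  unfold GG at h
  obtain ⟨x, hx, hc⟩ := List.mem_flatMap.mp h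
  rw [List.eq_of_mem_replicate hc]
  exact hx

theorem GG_perm (g g' : ℕ → ℕ) (S : List ℕ) :
    (GG S g ++ GG S g').Perm (GG S (fun x => g x + g' x)) := by
  rw [List.perm_iff_count]
  intro c
  induction S with
  | nil => rfl
  | cons x S ih =>
    rw [GG_cons, GG_cons, GG_cons, List.replicate_add]
    simp only [List.count_append] at ih ⊢
    omega

theorem exs (h1 : PrmStmt) (h2 : ExlStmt) : ExsStmt := by
  intro n β hβ H pre suf S A D g g' hS
  constructor
  · induction S generalizing A with
    | nil => exact fun hok _ => ⟨hok, RR.refl _⟩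
    | cons x S ih =>
      intro hok hg
      obtain ⟨hxH, hxA, hxD⟩ := hS x List.mem_cons_self
      rw [GG_cons, List.append_assoc] at hok
      obtain ⟨k1, k2⟩ := h2 n β hβ H pre suf A (GG S g ++ D) x (g x) (g' x) hok hxH hxA
        (List.mem_append_right _ hxD) (hg x List.mem_cons_self)
      have k3 := ih (A := A ++ List.replicate (g' x) x)
        (fun y hy => ⟨(hS y (List.mem_cons_of_mem _ hy)).1,
          List.mem_append_left _ (hS y (List.mem_cons_of_mem _ hy)).2.1,
          (hS y (List.mem_cons_of_mem _ hy)).2.2⟩)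
        (by rw [List.append_assoc]; exact k1) (fun y hy => hg y (List.mem_cons_of_mem _ hy))
      rw [List.append_assoc, List.append_assoc] at k3
      rw [GG_cons, GG_cons, List.append_assoc, List.append_assoc]
      exact ⟨k3.1, β.trans k2 k3.2⟩
  · intro hok
    have hok' : Ok1 H pre suf (A ++ ((GG S g ++ GG S g') ++ D)) := by
      rw [List.append_assoc (GG S g)]
      exact hok
    have k := h1 n β hβ H pre suf A (GG S g ++ GG S g') (GG S (fun x => g x + g' x)) D hok'
      (by
        intro c hc
        rcases List.mem_append.mp hc with h | h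
        · exact (hS c (mem_GG h)).1
        · exact (hS c (mem_GG h)).1)
      (GG_perm g g' S)
    rw [List.append_assoc (GG S g)] at k
    exact k

end Pool.Agent.MWGR.H19
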