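import Pool.Agent.MWGR.StmtsC

/-!
# Row LEL of block MWGR: `LEo` from the literal identities
-/

set_option autoImplicit false

namespace Pool.Agent.MWGR.H19

open Pool.Agent.Helper14_MV Pool.Agent.Helper2_MV Pool.Agent.MVO Pool.Agent.MWL Pool.Agent.MWS
  Pool.Agent.MWH Pool.Agent.MWGR

theorem flatMap_X {g : ℕ → List ℕ} {x : ℕ} (h : g 0 = [x]) : ∀ k : ℕ,
    (X k).flatMap g = List.replicate k x
  | 0 => rfl
  | k + 1 => by
    have e1 : X (k + 1) = 0 :: X k := rfl
    rw [e1, List.flatMap_cons, h, flatMap_X h k]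
    rfl

theorem lel (h1 : MWGP.GapStmt) : LelStmt := by
  intro n η hη H pre suf x a ha
  refine ⟨?_, ?_, ?_⟩
  · intro hz A D hok
    have hs : a ∈ suf := (hok.lt a (List.mem_append_right _ List.mem_cons_self) ha).2.2
    obtain ⟨s1, s2, hs⟩ := List.append_of_mem hs
    have e1 : RR η [1, 0, 0, 2, 1] (X n ++ [1, 0, 0, 2, 1]) := hz
    have e2 := e1.sub (fun i => if i = 0 then [x] else if i = 1 then [a] else D ++ s1)
    rw [List.flatMap_append, flatMap_X (x := x) rfl] at e2
    have e3 := (RR.refl (pre ++ A)).append (e2.append (RR.refl s2))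
    unfold Wd
    rw [hs]
    simpa [List.append_assoc] using e3
  · intro hz hx A D hok
    have hs : a ∈ suf := (hok.lt a (List.mem_append_right _ List.mem_cons_self) ha).2.2
    obtain ⟨s1, s2, hs⟩ := List.append_of_mem hs
    obtain ⟨p1, p2, hp⟩ := List.append_of_mem hx
    have e1 : RR η [0, 2, 1, 0, 0, 3, 1] ([0, 2] ++ (X n ++ [1, 0, 0, 3, 1])) := hz
    have e2 := e1.sub (fun i => if i = 0 then [x] else if i = 1 then [a] else
      if i = 2 then p2 ++ A else D ++ s1)
    rw [List.flatMap_append, List.flatMap_append, flatMap_X (x := x) rfl] at e2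
    have e3 := (RR.refl p1).append (e2.append (RR.refl s2))
    unfold Wd
    rw [hs, hp]
    simpa [List.append_assoc] using e3
  · intro hz hx A D hok
    have hs : a ∈ suf := (hok.lt a (List.mem_append_right _ List.mem_cons_self) ha).2.2
    obtain ⟨s1, s2, hs⟩ := List.append_of_mem hs
    have hxp : x ∈ pre := List.count_pos_iff.mp (by omega)
    obtain ⟨p1, r, hp, hxp1⟩ := List.eq_append_cons_of_mem hxp
    have hxr : x ∈ r := by
      rw [← List.count_pos_iff]
      rw [hp, List.count_append, List.count_cons_self, List.count_eq_zero.mpr hxp1] at hx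
      omega
    obtain ⟨p2, p3, hr⟩ := List.append_of_mem hxr
    have e1 : RR η [0, 0, 2, 1, 0, 0, 3, 1] ([0, 0, 2] ++ (X n ++ [1, 0, 0, 3, 1])) := hz
    have e2 := e1.sub (fun i => if i = 0 then [x] else if i = 1 then [a] else
      if i = 2 then p3 ++ A else D ++ s1)
    rw [List.flatMap_append, List.flatMap_append, flatMap_X (x := x) rfl] at e2
    have hn := hη.pos
    have hpow : List.replicate (n + 1) x = List.replicate (n - 1) x ++ [x, x] := by
      obtain ⟨n', rfl⟩ := Nat.exists_eq_add_of_le' hn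
      rw [Nat.add_sub_cancel, show n' + 1 + 1 = n' + 2 from rfl, List.replicate_add]
      rfl
    have e3 := (RR.refl (p1 ++ x :: (p2 ++ List.replicate (n - 1) x))).append
      (e2.append (RR.refl s2))
    have hmem : x ∈ p1 ++ x :: p2 := List.mem_append_right _ List.mem_cons_self
    have g : ∀ q : List ℕ, RR η (p1 ++ x :: (p2 ++ x :: q))
        (p1 ++ x :: (p2 ++ (List.replicate (n - 1) x ++ x :: x :: q))) := by
      intro q
      have := (h1 n η hη.ga hη.rn (p1 ++ x :: p2) q x x hmem).1
      rw [hpow] at this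
      simpa [List.append_assoc] using this
    unfold Wd
    rw [hs, hp, hr]
    have g1 := g (p3 ++ (A ++ a :: x :: x :: D ++ (s1 ++ a :: s2)))
    have g2 := g (p3 ++ (A ++ (List.replicate n x ++ a :: x :: x :: D) ++ (s1 ++ a :: s2)))
    have g3 : RR η (p1 ++ x :: (p2 ++ (List.replicate (n - 1) x ++ x :: x ::
          (p3 ++ (A ++ a :: x :: x :: D ++ (s1 ++ a :: s2))))))
        (p1 ++ x :: (p2 ++ (List.replicate (n - 1) x ++ x :: x ::
          (p3 ++ (A ++ (List.replicate n x ++ a :: x :: x :: D) ++ (s1 ++ a :: s2)))))) := by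
      simpa [List.append_assoc] using e3
    have g4 : RR η _ _ := η.trans (η.trans g1 g3) g2.symm
    simpa [List.append_assoc] using g4

end Pool.Agent.MWGR.H19
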