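import Pool.Agent.MWGR.StmtsD
import Pool.Agent.MWGR.StmtsN

/-!
# Row NFE of block MWGR: two light letters in different order, alternating pattern
-/

set_option autoImplicit false

namespace Pool.Agent.MWGR.H19

open Pool.Agent.Helper14_MV Pool.Agent.Helper2_MV Pool.Agent.MVO Pool.Agent.MWL Pool.Agent.MWS
  Pool.Agent.MWH Pool.Agent.MWGR

theorem cb_of_split {a : ℕ} {P Q : List ℕ} (h : a ∉ P) (x : ℕ) :
    cb (P ++ a :: Q) x a = P.count x := by
  unfold cb
  rw [List.takeWhile_append_of_pos (by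
    intro c hc
    exact decide_eq_true (fun e => h (e ▸ hc)))]
  rw [List.takeWhile_cons_of_neg (by simp), List.append_nil]

theorem asd_eq (r : ℕ) (C : ℕ → List ℕ) :
    asd 1 r C = C 0 ++ (List.range r).flatMap (fun j => (3 + j) :: C (j + 1)) := by
  induction r with
  | zero => simp [asd]
  | succ r ih =>
    have e : r + 2 + 1 = 3 + r := by omega
    show asd 1 r C ++ (r + 2 + 1) :: C (r + 1) = _
    rw [ih, List.range_succ, List.flatMap_append, List.append_assoc, e, List.flatMap_cons,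
      List.flatMap_nil, List.append_nil]

theorem flatMap_one (s y : ℕ) (σ : ℕ → List ℕ) : ∀ l : List ℕ,
    (∀ c ∈ l, σ c = if c = s then [y] else []) → l.flatMap σ = List.replicate (l.count s) y
  | [], _ => rfl
  | c :: l, h => by
    rw [List.flatMap_cons, h c List.mem_cons_self,
      flatMap_one s y σ l (fun c hc => h c (List.mem_cons_of_mem _ hc))]
    by_cases hc : c = s
    · subst hc
      rw [if_pos rfl, List.count_cons_self, List.replicate_succ]
      rfl
    · rw [if_neg hc, List.count_cons_of_ne hc]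
      rfl

theorem flatMap_ext {l : List ℕ} {g g' : ℕ → List ℕ} (h : ∀ c ∈ l, g c = g' c) :
    l.flatMap g = l.flatMap g' := by
  induction l with
  | nil => rfl
  | cons c l ih =>
    rw [List.flatMap_cons, List.flatMap_cons, h c List.mem_cons_self,
      ih (fun d hd => h d (List.mem_cons_of_mem _ hd))]

/-- the block with the two light letters -/
theorem block0 (h2 : PbiStmt) (h4 : EvlStmt) {k i : ℕ} {f : ℕ → ℕ} {B : ℕ → List ℕ}
    {σ : ℕ → List ℕ} {R : List ℕ} {m : ℕ → ℕ} {a b p q : ℕ} (hi : i ≤ k) (hR : R.Nodup)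
    {P M Q : List ℕ} (hB : B i = P ++ a :: (M ++ b :: Q))
    (hσ : ∀ c, c ≠ a → c ≠ b → σ c = if c ∈ R then X (m c) else [])
    (ha : σ a = [p]) (hb : σ b = [q])
    (hna : ∀ l ∈ [P, M, Q], a ∉ l ∧ b ∉ l)
    (hnj : ∀ j ≤ k, j ≠ i → f j = f i → a ∉ B j ∧ b ∉ B j) :
    ∃ u w, (pshB k f B (f i)).flatMap σ =
      X u ++ p :: (X ((R.map (fun x => m x * M.count x)).sum) ++ q :: X w) := by
  have key : ∀ l : List ℕ, (∀ c ∈ l, c ≠ a ∧ c ≠ b) →
      l.flatMap σ = X ((R.map (fun x => m x * l.count x)).sum) := fun l hl =>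
    h4 R m l σ hR (fun c hc => hσ c (hl c hc).1 (hl c hc).2)
  have hne : ∀ l : List ℕ, a ∉ l ∧ b ∉ l → ∀ c ∈ l, c ≠ a ∧ c ≠ b := fun l hl c hc =>
    ⟨fun e => hl.1 (e ▸ hc), fun e => hl.2 (e ▸ hc)⟩
  have hP := hne P (hna P (by simp))
  have hM := hne M (hna M (by simp))
  have hQ := hne Q (hna Q (by simp))
  rw [h2 k i f B hi, hB]
  have h1' : ∀ c ∈ ((List.range i).filter (fun j => decide (f j = f i))).flatMap B,
      c ≠ a ∧ c ≠ b := by
    intro c hc
    obtain ⟨j, hj, hcj⟩ := List.mem_flatMap.mp hc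
    rw [List.mem_filter, List.mem_range, decide_eq_true_iff] at hj
    exact hne (B j) (hnj j (by omega) (by omega) hj.2) c hcj
  have h2' : ∀ c ∈ ((List.range' (i + 1) (k - i)).filter
      (fun j => decide (f j = f i))).flatMap B, c ≠ a ∧ c ≠ b := by
    intro c hc
    obtain ⟨j, hj, hcj⟩ := List.mem_flatMap.mp hc
    rw [List.mem_filter, List.mem_range'_1, decide_eq_true_iff] at hj
    exact hne (B j) (hnj j (by omega) (by omega) hj.2) c hcj
  generalize ((List.range i).filter (fun j => decide (f j = f i))).flatMap B = L1 at h1' ⊢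
  generalize ((List.range' (i + 1) (k - i)).filter
      (fun j => decide (f j = f i))).flatMap B = L2 at h2' ⊢
  have e1 := key (L1 ++ P) (by
    intro c hc
    rcases List.mem_append.mp hc with h | h
    · exact h1' c h
    · exact hP c h)
  have e2 := key M hM
  have e3 := key (Q ++ L2) (by
    intro c hc
    rcases List.mem_append.mp hc with h | h
    · exact hQ c h
    · exact h2' c h)
  refine ⟨(R.map (fun x => m x * (L1 ++ P).count x)).sum,
    (R.map (fun x => m x * (Q ++ L2).count x)).sum, ?_⟩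
  have e : (L1 ++ ((P ++ a :: (M ++ b :: Q)) ++ L2)).flatMap σ =
      (L1 ++ P).flatMap σ ++ (σ a ++ (M.flatMap σ ++ (σ b ++ (Q ++ L2).flatMap σ))) := by
    simp only [List.flatMap_append, List.flatMap_cons, List.append_assoc]
  rw [e, e1, e2, e3, ha, hb]
  rfl

/-- the tail -/
theorem tail_eq {k r i : ℕ} {f : ℕ → ℕ} {C : ℕ → List ℕ} {σ : ℕ → List ℕ} {R : List ℕ}
    {m : ℕ → ℕ} {a b : ℕ} (hab : a ≠ b)
    (hσ : ∀ c, c ≠ a → c ≠ b → σ c = if c ∈ R then X (m c) else [])
    (ha : σ a = [1]) (hb : σ b = [2]) (h0 : ∀ j ≤ i, f j = 0)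
    (hA : ∀ j, i < j → j ≤ k → a ∈ C j → f j % 2 = 1)
    (hB : ∀ j, i < j → j ≤ k → b ∈ C j → f j % 2 = 0 ∧ 1 ≤ f j)
    (hR : ∀ x ∈ R, ∀ j ≤ k, x ∈ C j → f j = 0)
    (hS : ∀ t, 1 ≤ t → t ≤ r → ∃ j, i < j ∧ j ≤ k ∧ f j = t ∧
          (t % 2 = 1 → a ∈ C j) ∧ (t % 2 = 0 → b ∈ C j)) :
    ∃ rr : ℕ → ℕ, (∀ t < r, 1 ≤ rr t) ∧
      asd 1 r (fun j => (pshB k f C j).flatMap σ) = (pshB k f C 0).flatMap σ ++ altm r rr := by
  refine ⟨fun t => (pshB k f C (t + 1)).count (if t % 2 = 0 then a else b), ?_, ?_⟩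
  · intro t ht
    apply List.count_pos_iff.mpr
    obtain ⟨j, h1, h2, h3, h4, h5⟩ := hS (t + 1) (by omega) (by omega)
    rw [mem_pshB]
    refine ⟨j, h2, h3, ?_⟩
    by_cases hp : t % 2 = 0
    · rw [if_pos hp]
      exact h4 (by omega)
    · rw [if_neg hp]
      exact h5 (by omega)
  · rw [asd_eq]
    congr 1
    unfold altm
    apply flatMap_ext
    intro t ht
    congr 1
    apply flatMap_one
    intro c hc
    obtain ⟨j, hj1, hj2, hj3⟩ := mem_pshB.mp hc
    have hij : i < j := by
      by_contra hcon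
      have := h0 j (by omega)
      omega
    by_cases hca : c = a
    · subst hca
      have := hA j hij hj1 hj3
      rw [if_pos (by omega : t % 2 = 0), if_pos rfl, ha]
      have e : 1 + t % 2 = 1 := by omega
      rw [e]
    · by_cases hcb : c = b
      · subst hcb
        have := (hB j hij hj1 hj3).1
        rw [if_neg (by omega : ¬ t % 2 = 0), if_pos rfl, hb]
        have e : 1 + t % 2 = 2 := by omega
        rw [e]
      · rw [hσ c hca hcb, if_neg (fun hcR => by
          have := hR c hcR j hj1 hj3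
          omega)]
        by_cases hp : t % 2 = 0
        · rw [if_pos hp, if_neg hca]
        · rw [if_neg hp, if_neg hcb]

theorem alt_split {r : ℕ} (hr : 2 ≤ r) : ∃ T' : List ℕ, alt r = 3 :: T' ∧ 0 ∉ T' ∧ 3 ∉ T' ∧
    1 ∈ T' ∧ 2 ∈ T' := by
  obtain ⟨s, rfl⟩ : ∃ s, r = s + 2 := ⟨r - 2, by omega⟩
  refine ⟨1 :: 4 :: 2 :: ((List.range s).flatMap (fun j => [3 + (j + 2), 1 + (j + 2) % 2])),
    ?_, ?_, ?_, ?_, ?_⟩
  · unfold alt
    rw [List.range_succ_eq_map, List.range_succ_eq_map]
    simp only [List.flatMap_cons, List.map_cons, List.map_map, List.flatMap_map]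
    rfl
  · intro h
    simp only [List.mem_cons, List.mem_flatMap, List.not_mem_nil, or_false] at h
    rcases h with h | h | h | ⟨j, _, h | h⟩ <;> omega
  · intro h
    simp only [List.mem_cons, List.mem_flatMap, List.not_mem_nil, or_false] at h
    rcases h with h | h | h | ⟨j, _, h | h⟩ <;> omega
  · simp
  · simp

theorem nfe (h1 : PslStmt) (h2 : PbiStmt) (h3 : SptStmt) (h4 : EvlStmt) (h5 : NtqStmt)
    (h6 : EcdStmt) : NfeStmt := by
  intro n k θ B B' hBG hF hRR i a b hi hab ca cb1 hcb hcb' r f hr2 hrk hBM h0 hA hB hS hZ R hRn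
    hR m
  -- counts in the blocks of `B'`
  have hns : ∀ j ≤ k, ∀ c ∈ B j, NS k c := hF.ok.ok
  have haB : a ∈ B i := List.count_pos_iff.mp (by omega)
  have hbB : b ∈ B i := List.count_pos_iff.mp (by omega)
  have hnsa : NS k a := hns i hi a haB
  have hnsb : NS k b := hns i hi b hbB
  have hmem : ∀ c, NS k c → ∀ j ≤ k, (c ∈ B j ↔ c ∈ B' j) := by
    intro c hc j hj
    have e := hF.eq c hc j hj
    unfold ty at e
    rw [← List.count_pos_iff, ← List.count_pos_iff]
    rcases e with e | e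
    · rw [e]
    · omega
  have hcnt : ∀ c, NS k c → (B i).count c = 1 → (B' i).count c = 1 := by
    intro c hc h
    have e := hF.eq c hc i hi
    unfold ty at e
    rcases e with e | e
    · exact e ▸ h
    · omega
  have hpre : ∀ c, NS k c → (B i).count c = 1 → ∀ j < i, c ∉ B j := by
    intro c hc h j hj hcj
    have e := hF.gm c hc j i hj hi (by
      unfold ty
      exact (List.count_pos_iff.mpr hcj).ne') (by unfold ty; omega)
    unfold ty at e
    omega
  have ca' := hcnt a hnsa ca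
  have cb1' := hcnt b hnsb cb1
  have hfi : f i = 0 := h0 i le_rfl
  have hnj : ∀ j ≤ k, j ≠ i → f j = f i → a ∉ B j ∧ b ∉ B j := by
    intro j hj hji hf
    rw [hfi] at hf
    rcases Nat.lt_or_gt_of_ne hji with h | h
    · exact ⟨hpre a hnsa ca j h, hpre b hnsb cb1 j h⟩
    · constructor
      · intro hc
        have := hA j h hj hc
        omega
      · intro hc
        have := hB j h hj hc
        omega
  have hnj' : ∀ j ≤ k, j ≠ i → f j = f i → b ∉ B' j ∧ a ∉ B' j := by
    intro j hj hji hf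
    exact ⟨fun hc => (hnj j hj hji hf).2 ((hmem b hnsb j hj).mpr hc),
      fun hc => (hnj j hj hji hf).1 ((hmem a hnsa j hj).mpr hc)⟩
  have hRa : ∀ x ∈ R, x ≠ a := by
    intro x hx e
    have := (hR x hx).1
    rw [e] at this
    omega
  have hRb : ∀ x ∈ R, x ≠ b := by
    intro x hx e
    have := (hR x hx).1
    rw [e] at this
    omega
  have hR0 : ∀ x ∈ R, ∀ j ≤ k, x ∈ B j → f j = 0 := by
    intro x hx j hj hxj
    by_cases hij : j ≤ i
    · exact h0 j hij
    · apply hZ j hj
      intro j' hj1 hj2 haj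
      have := (hR x hx).2.1 j' j hj1 (by omega) (by omega) hj haj hxj
      omega
  have hR0' : ∀ x ∈ R, ∀ j ≤ k, x ∈ B' j → f j = 0 := by
    intro x hx j hj hxj
    have hxi : x ∈ B i := List.count_pos_iff.mp (by have := (hR x hx).1; omega)
    exact hR0 x hx j hj ((hmem x (hns i hi x hxi) j hj).mpr hxj)
  -- the substitution
  obtain ⟨σ, hσ⟩ : ∃ σ : ℕ → List ℕ,
      σ = fun c => if c = a then [1] else if c = b then [2] else if c ∈ R then X (m c) else [] :=
    ⟨_, rfl⟩
  have hσa : σ a = [1] := by rw [hσ]; exact if_pos rfl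
  have hσb : σ b = [2] := by
    rw [hσ]
    show (if b = a then [1] else if b = b then [2] else if b ∈ R then X (m b) else []) = [2]
    rw [if_neg (Ne.symm hab), if_pos rfl]
  have hσc : ∀ c, c ≠ a → c ≠ b → σ c = if c ∈ R then X (m c) else [] := by
    intro c hca hcb2
    rw [hσ]
    show (if c = a then [1] else if c = b then [2] else if c ∈ R then X (m c) else []) = _
    rw [if_neg hca, if_neg hcb2]
  have hpush := h1 θ k r 1 f B B' σ hBM hrk hF.ok.ok hF.ok'.ok hRR
  -- the tails
  obtain ⟨rr, hrr, et⟩ := tail_eq (k := k) (r := r) (i := i) (f := f) (C := B) (σ := σ) (R := R)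
    (m := m) hab hσc hσa hσb h0 hA hB hR0 hS
  obtain ⟨rr', hrr', et'⟩ := tail_eq (k := k) (r := r) (i := i) (f := f) (C := B') (σ := σ)
    (R := R) (m := m) hab hσc hσa hσb h0
    (fun j hij hj hc => hA j hij hj ((hmem a hnsa j hj).mpr hc))
    (fun j hij hj hc => hB j hij hj ((hmem b hnsb j hj).mpr hc)) hR0'
    (fun t ht1 ht2 => by
      obtain ⟨j, g1, g2, g3, g4, g5⟩ := hS t ht1 ht2
      exact ⟨j, g1, g2, g3, fun h => (hmem a hnsa j g2).mp (g4 h),
        fun h => (hmem b hnsb j g2).mp (g5 h)⟩)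
  -- block `i` of `B`
  obtain ⟨P1, Q1, eB, hbP, hbQ, hcount⟩ := h3 (B i) b cb1
  have hP1a : P1.count a = 1 := by rw [← hcount a]; exact hcb
  obtain ⟨P, M, eP, haP, haM, _⟩ := h3 P1 a hP1a
  have eB2 : B i = P ++ a :: (M ++ b :: Q1) := by
    rw [eB, eP]
    simp only [List.append_assoc, List.cons_append]
  have haQ : a ∉ Q1 := by
    intro h
    have h' := List.count_pos_iff.mpr h
    rw [eB, List.count_append, List.count_cons_of_ne (Ne.symm hab)] at ca
    omega
  have hbP' : b ∉ P := fun h => hbP (by rw [eP]; exact List.mem_append_left _ h)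
  have hbM : b ∉ M := fun h => hbP (by
    rw [eP]; exact List.mem_append_right _ (List.mem_cons_of_mem _ h))
  obtain ⟨u, w, e0⟩ := block0 h2 h4 (k := k) (i := i) (f := f) (B := B) (σ := σ) (R := R) (m := m)
    (a := a) (b := b) (p := 1) (q := 2) hi hRn eB2 hσc hσa hσb
    (by
      intro l hl
      simp only [List.mem_cons, List.not_mem_nil, or_false] at hl
      rcases hl with rfl | rfl | rfl
      · exact ⟨haP, hbP'⟩
      · exact ⟨haM, hbM⟩
      · exact ⟨haQ, hbQ⟩) hnj
  -- block `i` of `B'`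
  obtain ⟨P1', Q1', eB', hbP1', hbQ1', hcount'⟩ := h3 (B' i) b cb1'
  have hP1a' : P1'.count a = 0 := by rw [← hcount' a]; exact hcb'
  have hQ1a' : Q1'.count a = 1 := by
    rw [eB', List.count_append, List.count_cons_of_ne (Ne.symm hab)] at ca'
    omega
  obtain ⟨M', Q', eQ', haM', haQ', _⟩ := h3 Q1' a hQ1a'
  have eB2' : B' i = P1' ++ b :: (M' ++ a :: Q') := by
    rw [eB', eQ']
  obtain ⟨u', w', e0'⟩ := block0 h2 h4 (k := k) (i := i) (f := f) (B := B') (σ := σ) (R := R)
    (m := m) (a := b) (b := a) (p := 2) (q := 1) hi hRn eB2' (fun c h h' => hσc c h' h) hσb hσa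
    (by
      intro l hl
      simp only [List.mem_cons, List.not_mem_nil, or_false] at hl
      rcases hl with rfl | rfl | rfl
      · exact ⟨hbP1', List.count_eq_zero.mp hP1a'⟩
      · exact ⟨fun h => hbQ1' (by rw [eQ']; exact List.mem_append_left _ h), haM'⟩
      · exact ⟨fun h => hbQ1' (by
          rw [eQ']; exact List.mem_append_right _ (List.mem_cons_of_mem _ h)), haQ'⟩) hnj'
  rw [et, et'] at hpush
  rw [hfi] at e0 e0'
  rw [e0, e0'] at hpush
  have hq := h5 n θ hBG r rr rr' u ((R.map (fun x => m x * M.count x)).sum) w u'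
    ((R.map (fun x => m x * M'.count x)).sum) w' hr2 (fun t ht => ⟨hrr t ht, hrr' t ht⟩)
    (by
      simp only [List.append_assoc, List.cons_append] at hpush
      exact hpush)
  -- the sum
  obtain ⟨T', eT, hT0, hT3, hT1, hT2⟩ := alt_split hr2
  rw [eT] at hq ⊢
  refine (h6 n θ hBG T' hT0 hT3 hT1 hT2).1 _ _ ?_ hq
  have hgap : ∀ x ∈ R, m x * M.count x ≡ m x * gap n (B i) a b x [MOD n] := by
    intro x hx
    apply Nat.ModEq.mul_left
    have g1 : cb (B i) x a = P.count x := by rw [eB2]; exact cb_of_split haP x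
    have g2 : cb (B i) x b = P.count x + M.count x := by
      rw [hcount x, eP, List.count_append, List.count_cons_of_ne (Ne.symm (hRa x hx))]
    unfold gap
    rw [g1, g2]
    have hn := hBG.pos
    obtain ⟨n', rfl⟩ : ∃ n', n = n' + 1 := ⟨n - 1, by omega⟩
    have e : 2 * (n' + 1) + (n' + 1 - 1) * P.count x + (P.count x + M.count x) =
        M.count x + (n' + 1) * (2 + P.count x) := by
      rw [Nat.add_sub_cancel]
      ring
    rw [e]
    exact (Nat.modEq_iff_dvd' (by omega)).mpr ⟨2 + P.count x, by omega⟩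
  clear hq e0 hR hR0 hR0' hRa hRb hσc hσ e0' hRn hpush et et'
  induction R with
  | nil => exact Nat.ModEq.refl _
  | cons x R ih =>
    simp only [List.map_cons, List.sum_cons]
    exact (hgap x List.mem_cons_self).add (ih (fun y hy => hgap y (List.mem_cons_of_mem _ hy)))

end Pool.Agent.MWGR.H19
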