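import Pool.Agent.MWGR.StmtsN

/-!
# Row PBI of block MWGR: the pushed block which contains block `i`
-/

set_option autoImplicit false

namespace Pool.Agent.MWGR.H19

open Pool.Agent.Helper14_MV Pool.Agent.Helper2_MV Pool.Agent.MVO Pool.Agent.MWL Pool.Agent.MWS
  Pool.Agent.MWH Pool.Agent.MWGR

theorem range_split3 (k i : ℕ) (hi : i ≤ k) :
    List.range (k + 1) = List.range i ++ i :: List.range' (i + 1) (k - i) := by
  have e : k + 1 = i + (1 + (k - i)) := by omega
  rw [List.range_eq_range', e, ← List.range'_append_1, ← List.range_eq_range']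
  rw [← List.range'_append_1]
  simp

theorem pbi : PbiStmt := by
  intro k i f B hi
  unfold pshB
  rw [range_split3 k i hi, List.filter_append, List.flatMap_append,
    List.filter_cons_of_pos (by simp), List.flatMap_cons]

end Pool.Agent.MWGR.H19
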