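import Pool.Agent.MWGR.StmtsA

/-!
# Row RAP of block MWGR: realisations of concatenated token lists; open letters
-/

set_option autoImplicit false

namespace Pool.Agent.MWGR.H19

open Pool.Agent.Helper14_MV Pool.Agent.Helper2_MV Pool.Agent.MVO Pool.Agent.MWL Pool.Agent.MWS
  Pool.Agent.MWH Pool.Agent.MWGR

theorem opn_append (T2 : List ℕ) : ∀ (T1 : List ℕ) (O : ℕ → Bool),
    opn O (T1 ++ T2) = opn (opn O T1) T2
  | [], _ => rfl
  | t :: T1, O => by
    show opn _ (T1 ++ T2) = opn (opn _ T1) T2
    exact opn_append T2 T1 _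

/-- tokens of other letters do not matter -/
theorem opn_other (x : ℕ) : ∀ (T : List ℕ) (O : ℕ → Bool), 3 * x + 1 ∉ T → 3 * x + 2 ∉ T →
    opn O T x = O x
  | [], _, _, _ => rfl
  | t :: T, O, h1, h2 => by
    have e1 : opn O (t :: T) x =
        opn (if t % 3 = 0 then O else Function.update O (t / 3) (decide (t % 3 = 1))) T x := rfl
    rw [e1, opn_other x T _ (fun h => h1 (List.mem_cons_of_mem _ h))
      (fun h => h2 (List.mem_cons_of_mem _ h))]
    by_cases ht : t % 3 = 0
    · rw [if_pos ht]
    · rw [if_neg ht]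
      apply Function.update_of_ne
      intro hx
      have ht1 : t ≠ 3 * x + 1 := fun h => h1 (h ▸ List.mem_cons_self)
      have ht2 : t ≠ 3 * x + 2 := fun h => h2 (h ▸ List.mem_cons_self)
      omega

theorem opn_last1 (x : ℕ) (U V : List ℕ) (O : ℕ → Bool) (h1 : 3 * x + 1 ∉ V)
    (h2 : 3 * x + 2 ∉ V) : opn O (U ++ (3 * x + 1) :: V) x = true := by
  rw [opn_append]
  have e1 : opn (opn O U) ((3 * x + 1) :: V) =
      opn (if (3 * x + 1) % 3 = 0 then opn O U else
        Function.update (opn O U) ((3 * x + 1) / 3) (decide ((3 * x + 1) % 3 = 1))) V := rfl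
  rw [e1, opn_other x V _ h1 h2, if_neg (by omega)]
  have e2 : (3 * x + 1) / 3 = x := by omega
  rw [e2, Function.update_self]
  exact decide_eq_true (by omega)

theorem opn_last2 (x : ℕ) (U V : List ℕ) (O : ℕ → Bool) (h1 : 3 * x + 1 ∉ V)
    (h2 : 3 * x + 2 ∉ V) : opn O (U ++ (3 * x + 2) :: V) x = false := by
  rw [opn_append]
  have e1 : opn (opn O U) ((3 * x + 2) :: V) =
      opn (if (3 * x + 2) % 3 = 0 then opn O U else
        Function.update (opn O U) ((3 * x + 2) / 3) (decide ((3 * x + 2) % 3 = 1))) V := rfl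
  rw [e1, opn_other x V _ h1 h2, if_neg (by omega)]
  have e2 : (3 * x + 2) / 3 = x := by omega
  rw [e2, Function.update_self]
  exact decide_eq_false (by omega)

theorem uniq_split {s : ℕ} : ∀ {P P' Q Q' : List ℕ}, s ∉ P → s ∉ P' →
    P ++ s :: Q = P' ++ s :: Q' → P = P'
  | [], [], _, _, _, _, _ => rfl
  | [], a :: P', _, _, _, h2, h => by
    simp only [List.nil_append, List.cons_append, List.cons.injEq] at h
    exact absurd (h.1 ▸ List.mem_cons_self) h2
  | a :: P, [], _, _, h1, _, h => by
    simp only [List.nil_append, List.cons_append, List.cons.injEq] at h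
    exact absurd (h.1 ▸ List.mem_cons_self) h1
  | a :: P, b :: P', _, _, h1, h2, h => by
    simp only [List.cons_append, List.cons.injEq] at h
    rw [h.1, uniq_split (fun hh => h1 (List.mem_cons_of_mem _ hh))
      (fun hh => h2 (List.mem_cons_of_mem _ hh)) h.2]

theorem real_append (n : ℕ) (H : List ℕ) (Λ : ℕ → ℕ → ℕ) (N : ℕ → ℕ) (T2 : List ℕ) :
    ∀ (T1 : List ℕ) (O : ℕ → Bool),
      real n H Λ N O (T1 ++ T2) = real n H Λ N O T1 ++ real n H Λ N (opn O T1) T2
  | [], _ => rfl
  | t :: T1, O => by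
    show _ ++ real n H Λ N _ (T1 ++ T2) = (_ ++ real n H Λ N _ T1) ++ real n H Λ N (opn _ T1) T2
    rw [real_append n H Λ N T2 T1 _, List.append_assoc]

/-- if the closing token is in the first part, then the opening token is before it -/
theorem close_split {H pre suf T1 T2 : List ℕ} (hT : Tk H pre suf (T1 ++ T2)) {x : ℕ} (hx : x ∈ H)
    (h2 : 3 * x + 2 ∈ T1) :
    ∃ P Q, T1 = P ++ (3 * x + 2) :: Q ∧ 3 * x + 1 ∈ P ∧ 3 * x + 1 ∉ Q ∧ 3 * x + 2 ∉ Q := by
  obtain ⟨P, Q, hPQ⟩ := List.append_of_mem h2
  obtain ⟨A, B, C, hABC⟩ := hT.hv x hx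
  have hnd := hT.nd
  have e1 : T1 ++ T2 = P ++ (3 * x + 2) :: (Q ++ T2) := by
    rw [hPQ]
    simp
  have e2 : T1 ++ T2 = (A ++ (3 * x + 1) :: B) ++ (3 * x + 2) :: C := by
    rw [hABC]
    simp
  have n1 : 3 * x + 2 ∉ P ++ (Q ++ T2) := by
    have := hnd
    rw [e1, List.nodup_middle, List.nodup_cons] at this
    exact this.1
  have n2 : 3 * x + 2 ∉ (A ++ (3 * x + 1) :: B) ++ C := by
    have := hnd
    rw [e2, List.nodup_middle, List.nodup_cons] at this
    exact this.1
  have hP : P = A ++ (3 * x + 1) :: B := by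
    refine uniq_split (s := 3 * x + 2) (Q := Q ++ T2) (Q' := C)
      (fun h => n1 (List.mem_append_left _ h)) (fun h => n2 (List.mem_append_left _ h)) ?_
    rw [← e1, e2]
  have hm : 3 * x + 1 ∈ P := by
    rw [hP]
    exact List.mem_append_right _ List.mem_cons_self
  refine ⟨P, Q, hPQ, hm, ?_, fun h => n1 (List.mem_append_right _ (List.mem_append_left _ h))⟩
  intro hq
  have := hnd
  rw [e1, List.nodup_append] at this
  exact this.2.2 _ hm _ (List.mem_cons_of_mem _ (List.mem_append_left _ hq)) rfl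

theorem rap : RapStmt := by
  refine ⟨fun n H Λ N T1 T2 O => real_append n H Λ N T2 T1 O,
    fun T1 T2 O => opn_append T2 T1 O, ?_⟩
  intro H pre suf T1 T2 hT x hx
  have hnd := hT.nd
  by_cases hm1 : 3 * x + 1 ∈ T1
  · by_cases hm2 : 3 * x + 2 ∈ T2
    · have hn2 : 3 * x + 2 ∉ T1 := by
        intro h
        rw [List.nodup_append] at hnd
        exact hnd.2.2 _ h _ hm2 rfl
      obtain ⟨U, V, hUV⟩ := List.append_of_mem hm1
      have hnd1 : T1.Nodup := (List.nodup_append.mp hnd).1
      have hV1 : 3 * x + 1 ∉ V := by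
        rw [hUV, List.nodup_middle, List.nodup_cons] at hnd1
        exact fun h => hnd1.1 (List.mem_append_right _ h)
      have hV2 : 3 * x + 2 ∉ V := by
        intro h
        apply hn2
        rw [hUV]
        exact List.mem_append_right _ (List.mem_cons_of_mem _ h)
      constructor
      · intro _
        exact ⟨hm1, hm2⟩
      · intro _
        rw [hUV]
        exact opn_last1 x U V O0 hV1 hV2
    · have hmem : 3 * x + 2 ∈ T1 := by
        obtain ⟨A, B, C, hABC⟩ := hT.hv x hx
        have : 3 * x + 2 ∈ T1 ++ T2 := by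
          rw [hABC]
          exact List.mem_append_right _ (List.mem_cons_of_mem _
            (List.mem_append_right _ List.mem_cons_self))
        rcases List.mem_append.mp this with h | h
        · exact h
        · exact absurd h hm2
      obtain ⟨P, Q, hPQ, -, hQ1, hQ2⟩ := close_split hT hx hmem
      constructor
      · intro h
        rw [hPQ, opn_last2 x P Q O0 hQ1 hQ2] at h
        exact absurd h (by decide)
      · intro h
        exact absurd h.2 hm2
  · have hn2 : 3 * x + 2 ∉ T1 := by
      intro h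
      obtain ⟨P, Q, hPQ, hm, -, -⟩ := close_split hT hx h
      apply hm1
      rw [hPQ]
      exact List.mem_append_left _ hm
    constructor
    · intro h
      rw [opn_other x T1 O0 hm1 hn2] at h
      exact absurd h Bool.false_ne_true
    · intro h
      exact absurd h.1 hm1

end Pool.Agent.MWGR.H19
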