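import Pool.Agent.MWGR.StmtsF

/-!
# Row STW of block MWGR: the profiles of the letters of two related words
-/

set_option autoImplicit false

namespace Pool.Agent.MWGR.H19

open Pool.Agent.Helper14_MV Pool.Agent.Helper2_MV Pool.Agent.MVO Pool.Agent.MWL Pool.Agent.MWS
  Pool.Agent.MWH Pool.Agent.MWGR

theorem stw (h1 : MVO.OneStmt) (h2 : MWA.NdqStmt) (h3 : LrgStmt) (h4 : StbStmt) : StwStmt := by
  intro n β θ hβ hle hnc hD0 hE k B B' hB hB' hRR c hns hc
  obtain ⟨j, hj, hcj⟩ := hc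
  have d1 : 2 ≤ deg k (ty B c) := hB.ml j hj c hcj
  have e1 : (asm k B).count c = deg k (ty B c) := count_asm hns
  have e2 : (asm k B').count c = deg k (ty B' c) := count_asm hns
  have e3 := hβ.cap θ hle hnc _ _ hRR c
  have d2 : 2 ≤ deg k (ty B' c) := by
    rw [e1, e2] at e3
    omega
  exact ⟨d2, h4 n (FC.ofFIC θ) (h3 n β θ hβ hle) (h2 β θ hβ.cap hle hnc) hD0 hE k (ty B c) (ty B' c)
    d1 d2 (h1.1 θ k B B' c hns hB.ok hB'.ok hRR)⟩

end Pool.Agent.MWGR.H19
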